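import Mathlib

/-!
# Families of contracting similarities of the line: basic definitions
-/

set_option autoImplicit false

namespace Pool.Agent.Y810.EO2

/-- contracting similarities `x ↦ r x + t`, `0 < |r| < 1`, of the real line -/
def IsSim (φ : ℝ → ℝ) : Prop := ∃ r t : ℝ, r ≠ 0 ∧ |r| < 1 ∧ ∀ x, φ x = r * x + t

/-- the contraction ratio `|r|` of `x ↦ r x + t` -/
noncomputable def ratio (φ : ℝ → ℝ) : ℝ := |φ 1 - φ 0|

/-- composition of a word of maps, `comp [f, g, h] = f ∘ g ∘ h` -/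
def comp (w : List (ℝ → ℝ)) : ℝ → ℝ := w.foldr (fun f g => f ∘ g) id

/-- `Ψ` freely generates a free semigroup: distinct nonempty words with letters in `Ψ`
have distinct compositions -/
def IsFree (Ψ : Set (ℝ → ℝ)) : Prop :=
  ∀ w w' : List (ℝ → ℝ), w ≠ [] → w' ≠ [] → (∀ f ∈ w, f ∈ Ψ) → (∀ f ∈ w', f ∈ Ψ) →
    comp w = comp w' → w = w'

/-- the semigroup generated by `Φ` under composition -/
def Gen (Φ : Set (ℝ → ℝ)) : Set (ℝ → ℝ) :=
  {g | ∃ w : List (ℝ → ℝ), w ≠ [] ∧ (∀ f ∈ w, f ∈ Φ) ∧ comp w = g}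

/-- `s` is the similarity dimension of the finite family `Ψ` -/
def IsSimDim (Ψ : Finset (ℝ → ℝ)) (s : ℝ) : Prop := 0 ≤ s ∧ ∑ f ∈ Ψ, ratio f ^ s = 1

/-- the similarity dimensions of all finite free subsets of the semigroup generated by `Φ` -/
def freeDims (Φ : Set (ℝ → ℝ)) : Set ℝ :=
  {s | ∃ Ψ : Finset (ℝ → ℝ), (↑Ψ ⊆ Gen Φ) ∧ IsFree (↑Ψ : Set (ℝ → ℝ)) ∧ IsSimDim Ψ s}

/-! ### First facts -/

theorem comp_nil (x : ℝ) : comp [] x = x := rfl

theorem comp_cons (f : ℝ → ℝ) (w : List (ℝ → ℝ)) (x : ℝ) : comp (f :: w) x = f (comp w x) := rfl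

theorem comp_append (w w' : List (ℝ → ℝ)) (x : ℝ) : comp (w ++ w') x = comp w (comp w' x) := by
  induction w with
  | nil => rfl
  | cons f w ih => rw [List.cons_append, comp_cons, comp_cons, ih]

theorem IsSim.ratio_eq {φ : ℝ → ℝ} {r t : ℝ} (h : ∀ x, φ x = r * x + t) : ratio φ = |r| := by
  unfold ratio
  rw [h, h]
  congr 1
  ring

theorem IsSim.ratio_pos {φ : ℝ → ℝ} (h : IsSim φ) : 0 < ratio φ := by
  obtain ⟨r, t, h0, h1, h2⟩ := h
  rw [IsSim.ratio_eq h2]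
  exact abs_pos.2 h0

theorem IsSim.ratio_lt {φ : ℝ → ℝ} (h : IsSim φ) : ratio φ < 1 := by
  obtain ⟨r, t, h0, h1, h2⟩ := h
  rw [IsSim.ratio_eq h2]
  exact h1

theorem IsSim.dist_eq {φ : ℝ → ℝ} (h : IsSim φ) (x y : ℝ) : |φ x - φ y| = ratio φ * |x - y| := by
  obtain ⟨r, t, h0, h1, h2⟩ := h
  rw [IsSim.ratio_eq h2, h2, h2, ← abs_mul]
  congr 1
  ring

theorem IsSim.injective {φ : ℝ → ℝ} (h : IsSim φ) : Function.Injective φ := by
  intro x y hxy
  have h1 := h.dist_eq x y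
  rw [hxy, sub_self, abs_zero] at h1
  have h2 := (mul_eq_zero.1 h1.symm).resolve_left h.ratio_pos.ne'
  exact sub_eq_zero.1 (abs_eq_zero.1 h2)

theorem IsSim.comp {φ ψ : ℝ → ℝ} (h : IsSim φ) (h' : IsSim ψ) : IsSim (fun x => φ (ψ x)) := by
  obtain ⟨r, t, h0, h1, h2⟩ := h
  obtain ⟨r', t', h0', h1', h2'⟩ := h'
  refine ⟨r * r', r * t' + t, mul_ne_zero h0 h0', ?_, fun x => ?_⟩
  · rw [abs_mul]
    calc |r| * |r'| ≤ |r| * 1 := mul_le_mul_of_nonneg_left h1'.le (abs_nonneg _)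
      _ < 1 := by rw [mul_one]; exact h1
  · change φ (ψ x) = _
    rw [h2, h2']
    ring

theorem ratio_comp {φ ψ : ℝ → ℝ} (h : IsSim φ) :
    ratio (fun x => φ (ψ x)) = ratio φ * ratio ψ := by
  unfold ratio
  exact h.dist_eq _ _

theorem isSim_comp {w : List (ℝ → ℝ)} (hw : w ≠ []) (h : ∀ f ∈ w, IsSim f) : IsSim (comp w) := by
  induction w with
  | nil => exact absurd rfl hw
  | cons f w ih =>
    by_cases h0 : w = []
    · subst h0
      have : comp [f] = f := by funext x; rfl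
      rw [this]
      exact h f (by simp)
    · have h1 : comp (f :: w) = fun x => f (comp w x) := rfl
      have h2 : IsSim f := h f (by simp)
      have h3 : IsSim (comp w) := ih h0 fun g hg => h g (by simp [hg])
      rw [h1]
      exact h2.comp h3

theorem isSim_gen {Φ : Set (ℝ → ℝ)} (h : ∀ f ∈ Φ, IsSim f) : ∀ g ∈ Gen Φ, IsSim g := by
  rintro g ⟨w, hw, hf, rfl⟩
  exact isSim_comp hw fun f hfw => h f (hf f hfw)

theorem comp_mem {w : List (ℝ → ℝ)} {X : Set ℝ} (h : ∀ f ∈ w, ∀ x ∈ X, f x ∈ X) :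
    ∀ x ∈ X, comp w x ∈ X := by
  induction w with
  | nil => intro x hx; exact hx
  | cons f w ih =>
    intro x hx
    rw [comp_cons]
    exact h f (by simp) _ (ih (fun g hg => h g (by simp [hg])) x hx)

theorem comp_ne_id {w : List (ℝ → ℝ)} (hw : w ≠ []) (h : ∀ f ∈ w, IsSim f)
    (hid : ∀ x, comp w x = x) : False := by
  have h1 := isSim_comp hw h
  have h2 := h1.ratio_lt
  have h3 : ratio (comp w) = 1 := by
    unfold ratio
    rw [hid, hid]
    norm_num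
  linarith

end Pool.Agent.Y810.EO2
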