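import Pool.Agent.H517R2.EO.Final
import Pool.Agent.Y810.EO2.Defs

/-!
# Lower bound: a finite free family which maps `X` into itself
-/

set_option autoImplicit false

open H517.EO

namespace Pool.Agent.Y810.EO2

/-- homogeneous free systems (assembled from the modules of `H517.EO`) -/
theorem homog : G_homog := by
  have hLm : L_mono := t_L_mono
  have hLl : L_leak := t_L_leak (t_L_prod t_L_single) hLm
  have hDd : D_drop := t_D_drop t_D_pair t_E_bin t_E_grid
  have hDl : D_lam := t_D_lam hDd hLl hLm t_E_grid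
  have hF1 : F_one := t_F_one t_F_conv
  have hFh : F_h := t_F_h hF1 t_E_submod t_E_mono t_E_bound
  have hF2 : F_two := t_F_two (t_F_ent t_E_submod) t_E_submod hFh
  have hFt : F_thm := t_F_thm hF1 hF2 hFh t_F_act t_E_mono
  have hFl : F_low := t_F_low hFt t_E_submod t_E_mono
  have hN : N_nonflat := t_N_nonflat t_N_fejer hLl hLm t_E_grid t_E_card
  have hPg : P_grid := t_P_grid t_P_step t_P_multi
  have hAc : A_compact := t_A_compact t_A_ker (t_A_caseA t_E_mono t_E_card t_E_submod) t_A_anal
    t_A_root t_A_rel t_A_lim t_A_span t_A_det t_A_bds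
  have hWw : W_win := t_W_win t_W_lemma (t_W_minor t_W_liou) t_W_taylor t_A_rel
  have hWk : W_kappa := t_W_kappa hPg hWw (t_W_drop t_E_inactive t_E_mono) t_E_grid
  have hM : M_claim := t_M_claim hDl hFl t_P_near t_A_chain hAc hWk t_W_sep
  have hMc : M_cells := t_M_cells hM hN t_E_bound t_E_card
  exact t_G_homog hMc t_G_holder

/-- the lower bound for finitely many maps with indices -/
theorem lower_fin {n : ℕ} (r b : Fin n → ℝ) (hn : 0 < n) (hr : ∀ i, r i ≠ 0 ∧ |r i| < 1)
    (hfree : ∀ w w' : List (Fin n), Phi r b w = Phi r b w' → w = w')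
    (X : Set ℝ) (hXn : X.Nonempty) (hXc : IsCompact X)
    (hXi : ∀ i, ∀ x ∈ X, r i * x + b i ∈ X) (s : ℝ) (hs : (∑ i, |r i| ^ s) = 1) :
    ENNReal.ofReal (min 1 s) ≤ dimH X := by
  rcases Nat.lt_or_ge n 2 with hn2 | hn2
  · obtain rfl : n = 1 := by omega
    have hs0 : s = 0 := by
      have h4 : |r 0| ^ s = 1 := by simpa using hs
      have h5 : 0 < |r 0| := abs_pos.2 (hr 0).1
      rcases lt_trichotomy s 0 with h | h | h
      · exact absurd h4 (Real.one_lt_rpow_of_pos_of_lt_one_of_neg h5 (hr 0).2 h).ne'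
      · exact h
      · exact absurd h4 (Real.rpow_lt_one h5.le (hr 0).2 h).ne
    subst hs0
    simp
  · refine ENNReal.le_of_forall_pos_le_add ?_
    intro ε hε _
    obtain ⟨N, lam, W, hN, hl0, hl1, hW2, hW, hWs⟩ :=
      t_G_type n r s hn2 hr hs ε (by exact_mod_cast hε)
    have hfr : Free lam (fun a : {w // w ∈ W} => Phi r b (List.ofFn a.1) 0) := by
      intro k p q hpq
      have h6 : (List.ofFn (fun i => List.ofFn (p i).1)).flatten
          = (List.ofFn (fun i => List.ofFn (q i).1)).flatten := by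
        apply hfree
        funext x
        have e1 := Phi_flatten r b (fun a : {w // w ∈ W} => a.1) lam (fun a => hW a.1 a.2) k p x
        have e2 := Phi_flatten r b (fun a : {w // w ∈ W} => a.1) lam (fun a => hW a.1 a.2) k q x
        refine e1.trans (Eq.trans ?_ e2.symm)
        rw [hpq]
      have h7 : List.ofFn (fun i => List.ofFn (p i).1) = List.ofFn (fun i => List.ofFn (q i).1) := by
        rw [List.eq_iff_flatten_eq]
        refine ⟨h6, ?_⟩
        rw [List.map_ofFn, List.map_ofFn]
        congr 1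
        funext i
        simp
      have h8 := List.ofFn_injective h7
      funext i
      have h9 := congrFun h8 i
      exact Subtype.ext (List.ofFn_injective h9)
    have h10 := homog {w // w ∈ W} lam (fun a => Phi r b (List.ofFn a.1) 0)
      (by rw [Fintype.card_coe]; exact hW2) hl0 hl1 hfr X hXn hXc (by
        intro a x hx
        rw [← Phi_ofFn r b a.1 lam (hW a.1 a.2) x]
        exact Phi_mem r b hXi _ x hx)
    rw [Fintype.card_coe] at h10
    have h11 : min 1 s ≤ min 1 (Real.log W.card / Real.log (1 / lam)) + (ε : ℝ) := by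
      have hε' : (0 : ℝ) < ε := by exact_mod_cast hε
      rcases le_total 1 (Real.log W.card / Real.log (1 / lam)) with h12 | h12
      · rw [min_eq_left h12]
        exact (min_le_left _ _).trans (by linarith)
      · rw [min_eq_right h12]
        exact (min_le_right _ _).trans (by linarith)
    calc ENNReal.ofReal (min 1 s)
        ≤ ENNReal.ofReal (min 1 (Real.log W.card / Real.log (1 / lam)) + (ε : ℝ)) :=
          ENNReal.ofReal_le_ofReal h11
      _ ≤ ENNReal.ofReal (min 1 (Real.log W.card / Real.log (1 / lam))) + ENNReal.ofReal (ε : ℝ) :=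
          ENNReal.ofReal_add_le
      _ ≤ dimH X + ε := by
          rw [ENNReal.ofReal_coe_nnreal]
          gcongr

/-- the lower bound for a finite free set of maps -/
theorem lower (Ψ : Finset (ℝ → ℝ)) (hS : ∀ f ∈ Ψ, IsSim f) (hf : IsFree (↑Ψ : Set (ℝ → ℝ)))
    (X : Set ℝ) (hXn : X.Nonempty) (hXc : IsCompact X) (hXi : ∀ f ∈ Ψ, ∀ x ∈ X, f x ∈ X)
    (s : ℝ) (hs : IsSimDim Ψ s) : ENNReal.ofReal (min 1 s) ≤ dimH X := by
  classical
  obtain ⟨hs0, hs1⟩ := hs
  have hn : 0 < Ψ.card := by
    rw [Finset.card_pos]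
    by_contra h
    rw [Finset.not_nonempty_iff_eq_empty] at h
    subst h
    simp at hs1
  let e : Fin Ψ.card ≃ {f // f ∈ Ψ} := Ψ.equivFin.symm
  have hex : ∀ i : Fin Ψ.card, ∃ rt : ℝ × ℝ, rt.1 ≠ 0 ∧ |rt.1| < 1 ∧
      ∀ x, (e i).1 x = rt.1 * x + rt.2 := by
    intro i
    obtain ⟨r, t, h0, h1, h2⟩ := hS (e i).1 (e i).2
    exact ⟨(r, t), h0, h1, h2⟩
  choose rt hrt0 hrt1 hrt using hex
  have hcomp : ∀ (w : List (Fin Ψ.card)) (x : ℝ),
      Phi (fun i => (rt i).1) (fun i => (rt i).2) w x = comp (w.map fun i => (e i).1) x := by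
    intro w x
    induction w with
    | nil => rfl
    | cons i w ih =>
      rw [Phi_cons, List.map_cons, comp_cons, ih, hrt]
  have hmem : ∀ (w : List (Fin Ψ.card)), ∀ f ∈ w.map (fun i => (e i).1),
      f ∈ (↑Ψ : Set (ℝ → ℝ)) := by
    intro w f hfw
    obtain ⟨i, -, rfl⟩ := List.mem_map.1 hfw
    exact (e i).2
  have hsim : ∀ (w : List (Fin Ψ.card)), ∀ f ∈ w.map (fun i => (e i).1), IsSim f := by
    intro w f hfw
    exact hS f (hmem w f hfw)
  refine lower_fin (fun i => (rt i).1) (fun i => (rt i).2) hn (fun i => ⟨hrt0 i, hrt1 i⟩)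
    ?_ X hXn hXc ?_ s ?_
  · intro w w' hww
    have h1 : comp (w.map fun i => (e i).1) = comp (w'.map fun i => (e i).1) := by
      funext x
      rw [← hcomp, ← hcomp, hww]
    have hinj : Function.Injective (fun i : Fin Ψ.card => (e i).1) :=
      Subtype.val_injective.comp e.injective
    by_cases hw : w = []
    · by_cases hw' : w' = []
      · rw [hw, hw']
      · exfalso
        refine comp_ne_id (w := w'.map fun i => (e i).1) (by simpa using hw') (hsim w') ?_
        intro x
        rw [← h1, hw]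
        rfl
    · by_cases hw' : w' = []
      · exfalso
        refine comp_ne_id (w := w.map fun i => (e i).1) (by simpa using hw) (hsim w) ?_
        intro x
        rw [h1, hw']
        rfl
      · have h2 := hf (w.map fun i => (e i).1) (w'.map fun i => (e i).1) (by simpa using hw)
          (by simpa using hw') (hmem w) (hmem w') h1
        exact List.map_injective_iff.2 hinj h2
  · intro i x hx
    have := hXi (e i).1 (e i).2 x hx
    rw [hrt] at this
    exact this
  · rw [← hs1]
    have h1 : ∑ f ∈ Ψ, ratio f ^ s = ∑ f : {f // f ∈ Ψ}, ratio f.1 ^ s :=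
      (Finset.sum_coe_sort Ψ (fun f => ratio f ^ s)).symm
    rw [h1, ← e.sum_comp]
    refine Finset.sum_congr rfl fun i _ => ?_
    rw [IsSim.ratio_eq (hrt i)]

end Pool.Agent.Y810.EO2
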