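import Pool.Agent.Y810.EO2.Defs

/-!
# Upper bound: free families from separated points
-/

set_option autoImplicit false

open Finset Filter MeasureTheory Topology Set

namespace Pool.Agent.Y810.EO2

/-- bounds of the ratios of a compact family -/
theorem exists_bounds {Φ : Set (ℝ → ℝ)} (hΦ : Φ.Nonempty) (hS : ∀ φ ∈ Φ, IsSim φ)
    (hc : IsCompact Φ) : ∃ a ρ : ℝ, 0 < a ∧ 0 < ρ ∧ ρ < 1 ∧ ∀ φ ∈ Φ, a ≤ ratio φ ∧ ratio φ ≤ ρ := by
  have hcont : Continuous (ratio : (ℝ → ℝ) → ℝ) := by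
    unfold ratio
    exact ((continuous_apply 1).sub (continuous_apply 0)).abs
  obtain ⟨f, hf, hfm⟩ := hc.exists_isMinOn hΦ hcont.continuousOn
  obtain ⟨g, hg, hgm⟩ := hc.exists_isMaxOn hΦ hcont.continuousOn
  exact ⟨ratio f, ratio g, (hS f hf).ratio_pos, (hS g hg).ratio_pos, (hS g hg).ratio_lt,
    fun φ hφ => ⟨hfm hφ, hgm hφ⟩⟩

/-- words with prescribed ratio through a given point -/
theorem exists_word {Φ : Set (ℝ → ℝ)} (hS : ∀ φ ∈ Φ, IsSim φ) {a ρ : ℝ} (ha : 0 < a)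
    (hρ0 : 0 < ρ) (hb : ∀ φ ∈ Φ, a ≤ ratio φ ∧ ratio φ ≤ ρ) {X : Set ℝ}
    (hinv : X = ⋃ φ ∈ Φ, φ '' X) (n : ℕ) :
    ∀ δ : ℝ, 0 < δ → δ < 1 → ρ ^ n ≤ δ → ∀ x ∈ X, ∃ w : List (ℝ → ℝ), w ≠ [] ∧
      (∀ f ∈ w, f ∈ Φ) ∧ x ∈ comp w '' X ∧ a * δ ≤ ratio (comp w) ∧ ratio (comp w) ≤ δ := by
  induction n with
  | zero =>
    intro δ _ h1 h2
    rw [pow_zero] at h2
    exact absurd h2 (not_le.2 h1)
  | succ n ih =>
    intro δ h0 h1 h2 x hx
    have hx' := hx
    rw [hinv] at hx'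
    obtain ⟨φ, hφ, y, hy, hxy⟩ : ∃ φ ∈ Φ, ∃ y ∈ X, φ y = x := by
      simpa only [Set.mem_iUnion, Set.mem_image, exists_prop] using hx'
    have hsφ := hS φ hφ
    obtain ⟨hb1, hb2⟩ := hb φ hφ
    have hrp := hsφ.ratio_pos
    rcases le_or_gt (ratio φ) δ with h3 | h3
    · refine ⟨[φ], by simp, by simpa using hφ, ⟨y, hy, hxy⟩, ?_, ?_⟩
      · have : comp [φ] = φ := by funext z; rfl
        rw [this]
        nlinarith
      · have : comp [φ] = φ := by funext z; rfl
        rw [this]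
        exact h3
    · have h4 : 0 < δ / ratio φ := div_pos h0 hrp
      have h5 : δ / ratio φ < 1 := (div_lt_one hrp).2 h3
      have h6 : ρ ^ n ≤ δ / ratio φ := by
        rw [le_div_iff₀ hrp]
        calc ρ ^ n * ratio φ ≤ ρ ^ n * ρ :=
              mul_le_mul_of_nonneg_left hb2 (pow_nonneg hρ0.le n)
          _ = ρ ^ (n + 1) := (pow_succ ρ n).symm
          _ ≤ δ := h2
      obtain ⟨w, hw, hwΦ, ⟨z, hz, hzy⟩, hw1, hw2⟩ := ih (δ / ratio φ) h4 h5 h6 y hy
      have hrc : ratio (comp (φ :: w)) = ratio φ * ratio (comp w) := by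
        have : comp (φ :: w) = fun x => φ (comp w x) := rfl
        rw [this]
        exact ratio_comp hsφ
      refine ⟨φ :: w, by simp, ?_, ⟨z, hz, ?_⟩, ?_, ?_⟩
      · intro f hf
        rcases List.mem_cons.1 hf with rfl | hf
        · exact hφ
        · exact hwΦ f hf
      · rw [comp_cons, hzy, hxy]
      · rw [hrc]
        calc a * δ = ratio φ * (a * (δ / ratio φ)) := by field_simp
          _ ≤ ratio φ * ratio (comp w) := mul_le_mul_of_nonneg_left hw1 hrp.le
      · rw [hrc]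
        calc ratio φ * ratio (comp w) ≤ ratio φ * (δ / ratio φ) :=
              mul_le_mul_of_nonneg_left hw2 hrp.le
          _ = δ := by field_simp

/-- a family of maps with disjoint images of `X` is free -/
theorem isFree_of_disjoint {Ψ : Set (ℝ → ℝ)} (hS : ∀ f ∈ Ψ, IsSim f) {X : Set ℝ}
    (hXn : X.Nonempty) (hXi : ∀ f ∈ Ψ, ∀ x ∈ X, f x ∈ X)
    (hd : ∀ f ∈ Ψ, ∀ g ∈ Ψ, f ≠ g → ∀ x ∈ X, ∀ y ∈ X, f x ≠ g y) : IsFree Ψ := by
  obtain ⟨x0, hx0⟩ := hXn
  have key : ∀ w w' : List (ℝ → ℝ), (∀ f ∈ w, f ∈ Ψ) → (∀ f ∈ w', f ∈ Ψ) →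
      comp w = comp w' → w = w' := by
    intro w
    induction w with
    | nil =>
      intro w' _ hw' h
      by_contra hne
      exact comp_ne_id (w := w') (fun h0 => hne h0.symm) (fun f hf => hS f (hw' f hf))
        (fun x => by rw [← h]; rfl)
    | cons f w ih =>
      intro w' hw hw' h
      cases w' with
      | nil =>
        exfalso
        exact comp_ne_id (w := f :: w) (by simp) (fun g hg => hS g (hw g hg))
          (fun x => by rw [h]; rfl)
      | cons g w' =>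
        have hf : f ∈ Ψ := hw f (by simp)
        have hg : g ∈ Ψ := hw' g (by simp)
        have hwt : ∀ k ∈ w, k ∈ Ψ := fun k hk => hw k (by simp [hk])
        have hwt' : ∀ k ∈ w', k ∈ Ψ := fun k hk => hw' k (by simp [hk])
        have hfg : f = g := by
          by_contra hne
          have h1 := congrFun h x0
          rw [comp_cons, comp_cons] at h1
          exact hd f hf g hg hne _ (comp_mem (fun k hk => hXi k (hwt k hk)) x0 hx0) _
            (comp_mem (fun k hk => hXi k (hwt' k hk)) x0 hx0) h1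
        subst hfg
        have h2 : comp w = comp w' := by
          funext x
          have h1 := congrFun h x
          rw [comp_cons, comp_cons] at h1
          exact (hS f hf).injective h1
        rw [ih w' hwt hwt' h2]
  intro w w' _ _ h1 h2 h3
  exact key w w' h1 h2 h3

/-- existence of a similarity dimension above `s0` -/
theorem exists_simDim (Ψ : Finset (ℝ → ℝ)) (hS : ∀ f ∈ Ψ, IsSim f) {s0 : ℝ} (h0 : 0 ≤ s0)
    (h1 : 1 ≤ ∑ f ∈ Ψ, ratio f ^ s0) : ∃ s : ℝ, s0 ≤ s ∧ IsSimDim Ψ s := by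
  have hcont : Continuous (fun s : ℝ => ∑ f ∈ Ψ, ratio f ^ s) := by
    refine continuous_finsetSum _ fun f hf => ?_
    exact Real.continuous_const_rpow (hS f hf).ratio_pos.ne'
  have hlim : Tendsto (fun s : ℝ => ∑ f ∈ Ψ, ratio f ^ s) atTop (𝓝 0) := by
    have : Tendsto (fun s : ℝ => ∑ f ∈ Ψ, ratio f ^ s) atTop (𝓝 (∑ f ∈ Ψ, (0 : ℝ))) := by
      refine tendsto_finsetSum _ fun f hf => ?_
      exact tendsto_rpow_atTop_of_base_lt_one _ (by linarith [(hS f hf).ratio_pos])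
        (hS f hf).ratio_lt
    simpa using this
  obtain ⟨s1, hs1, hs1'⟩ : ∃ s1 : ℝ, s0 ≤ s1 ∧ ∑ f ∈ Ψ, ratio f ^ s1 < 1 := by
    have h2 := hlim.eventually (gt_mem_nhds (show (0 : ℝ) < 1 by norm_num))
    obtain ⟨s1, h3, h4⟩ := (h2.and (eventually_ge_atTop s0)).exists
    exact ⟨s1, h4, h3⟩
  have h2 := intermediate_value_Icc' hs1 hcont.continuousOn
  obtain ⟨s, hs, hs'⟩ := h2 ⟨hs1'.le, h1⟩
  exact ⟨s, hs.1, h0.trans hs.1, hs'⟩

/-- free families from separated points -/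
theorem free_of_separated {Φ : Set (ℝ → ℝ)} (hS : ∀ φ ∈ Φ, IsSim φ) {a ρ : ℝ} (ha : 0 < a)
    (hρ0 : 0 < ρ) (hρ1 : ρ < 1) (hb : ∀ φ ∈ Φ, a ≤ ratio φ ∧ ratio φ ≤ ρ) {X : Set ℝ}
    (hXn : X.Nonempty) (hinv : X = ⋃ φ ∈ Φ, φ '' X) {D : ℝ}
    (hD : ∀ x ∈ X, ∀ y ∈ X, |x - y| ≤ D) {δ : ℝ} (hδ0 : 0 < δ) (hδ1 : δ < 1)
    (P : Finset ℝ) (hP : (↑P : Set ℝ) ⊆ X)
    (hsep : ∀ x ∈ P, ∀ y ∈ P, x ≠ y → 2 * D * δ < |x - y|) :
    ∃ Ψ : Finset (ℝ → ℝ), (↑Ψ ⊆ Gen Φ) ∧ IsFree (↑Ψ : Set (ℝ → ℝ)) ∧ Ψ.card = P.card ∧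
      ∀ f ∈ Ψ, a * δ ≤ ratio f := by
  classical
  have hXi : ∀ f ∈ Φ, ∀ x ∈ X, f x ∈ X := by
    intro f hf x hx
    rw [hinv]
    exact Set.mem_iUnion₂.2 ⟨f, hf, x, hx, rfl⟩
  obtain ⟨n, hn⟩ : ∃ n : ℕ, ρ ^ n ≤ δ := by
    obtain ⟨n, hn⟩ := exists_pow_lt_of_lt_one hδ0 hρ1
    exact ⟨n, hn.le⟩
  have hw : ∀ x : {x // x ∈ P}, ∃ w : List (ℝ → ℝ), w ≠ [] ∧
      (∀ f ∈ w, f ∈ Φ) ∧ x.1 ∈ comp w '' X ∧ a * δ ≤ ratio (comp w) ∧ ratio (comp w) ≤ δ :=
    fun x => exists_word hS ha hρ0 hb hinv n δ hδ0 hδ1 hn x.1 (hP x.2)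
  choose w hw0 hwΦ hwx hw1 hw2 using hw
  let F : {x // x ∈ P} → (ℝ → ℝ) := fun x => comp (w x)
  have hFsim : ∀ x, IsSim (F x) := fun x => isSim_comp (hw0 x) fun f hf => hS f (hwΦ x f hf)
  have hFmem : ∀ x, ∀ y ∈ X, F x y ∈ X := fun x =>
    comp_mem fun f hf => hXi f (hwΦ x f hf)
  have hdisj : ∀ x y : {x // x ∈ P}, x ≠ y → ∀ u ∈ X, ∀ v ∈ X, F x u ≠ F y v := by
    intro x y hxy u hu v hv huv
    obtain ⟨u', hu', hxu⟩ := hwx x
    obtain ⟨v', hv', hyv⟩ := hwx y
    have h1 : |x.1 - F x u| ≤ D * δ := by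
      have h2 := (hFsim x).dist_eq u' u
      have h3 : F x u' = x.1 := hxu
      rw [h3] at h2
      rw [h2]
      calc ratio (F x) * |u' - u| ≤ δ * D :=
            mul_le_mul (hw2 x) (hD _ hu' _ hu) (abs_nonneg _) hδ0.le
        _ = D * δ := mul_comm _ _
    have h1' : |y.1 - F y v| ≤ D * δ := by
      have h2 := (hFsim y).dist_eq v' v
      have h3 : F y v' = y.1 := hyv
      rw [h3] at h2
      rw [h2]
      calc ratio (F y) * |v' - v| ≤ δ * D :=
            mul_le_mul (hw2 y) (hD _ hv' _ hv) (abs_nonneg _) hδ0.le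
        _ = D * δ := mul_comm _ _
    have h4 := hsep x.1 x.2 y.1 y.2 (fun h => hxy (Subtype.ext h))
    rw [huv] at h1
    have h5 : |x.1 - y.1| ≤ |x.1 - F y v| + |y.1 - F y v| := by
      rw [abs_sub_comm y.1 (F y v)]
      exact abs_sub_le _ _ _
    linarith
  have hFinj : Function.Injective F := by
    intro x y hxy
    by_contra hne
    obtain ⟨x0, hx0⟩ := hXn
    exact hdisj x y hne x0 hx0 x0 hx0 (by rw [hxy])
  refine ⟨Finset.univ.image F, ?_, ?_, ?_, ?_⟩
  · intro f hf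
    simp only [Finset.coe_image, Finset.coe_univ, Set.image_univ, Set.mem_range] at hf
    obtain ⟨x, rfl⟩ := hf
    exact ⟨w x, hw0 x, hwΦ x, rfl⟩
  · apply isFree_of_disjoint (X := X)
    · intro f hf
      simp only [Finset.coe_image, Finset.coe_univ, Set.image_univ, Set.mem_range] at hf
      obtain ⟨x, rfl⟩ := hf
      exact hFsim x
    · exact hXn
    · intro f hf
      simp only [Finset.coe_image, Finset.coe_univ, Set.image_univ, Set.mem_range] at hf
      obtain ⟨x, rfl⟩ := hf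
      exact hFmem x
    · intro f hf g hg hfg
      simp only [Finset.coe_image, Finset.coe_univ, Set.image_univ, Set.mem_range] at hf hg
      obtain ⟨x, rfl⟩ := hf
      obtain ⟨y, rfl⟩ := hg
      exact hdisj x y (fun h => hfg (by rw [h]))
  · rw [Finset.card_image_of_injective _ hFinj, Finset.card_univ, Fintype.card_coe]
  · intro f hf
    obtain ⟨x, -, rfl⟩ := Finset.mem_image.1 hf
    exact hw1 x

/-- maximal separated sets -/
theorem exists_sep {X : Set ℝ} (hXc : IsCompact X) {ε : ℝ} (hε : 0 < ε) :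
    ∃ P : Finset ℝ, (↑P : Set ℝ) ⊆ X ∧ (∀ x ∈ P, ∀ y ∈ P, x ≠ y → ε < |x - y|) ∧
      X ⊆ ⋃ x ∈ P, Metric.closedBall x ε := by
  classical
  let e : NNReal := ⟨ε, hε.le⟩
  have he : Metric.packingNumber e X ≠ ⊤ := by
    have h1 : e = 2 * (e / 2) := by
      rw [mul_div_cancel₀ _ (by norm_num)]
    have h2 : e / 2 ≠ 0 := by
      intro h
      have h3 : (e : ℝ) / 2 = 0 := by
        have := congrArg (fun z : NNReal => (z : ℝ)) h
        simpa using this
      change ε / 2 = 0 at h3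
      linarith
    obtain ⟨C, hCX, hCf, hC⟩ := Metric.exists_finite_isCover_of_isCompact h2 hXc
    rw [h1]
    refine ne_top_of_le_ne_top ?_ (Metric.packingNumber_two_mul_le_externalCoveringNumber _ _)
    exact ne_top_of_le_ne_top (Set.encard_ne_top_iff.2 hCf) hC.externalCoveringNumber_le_encard
  have hfin : (Metric.maximalSeparatedSet e X).Finite := by
    rw [← Set.encard_ne_top_iff, Metric.encard_maximalSeparatedSet he]
    exact he
  refine ⟨hfin.toFinset, ?_, ?_, ?_⟩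
  · rw [hfin.coe_toFinset]
    exact Metric.maximalSeparatedSet_subset
  · intro x hx y hy hxy
    have h1 : (e : ENNReal) < edist x y := Metric.isSeparated_maximalSeparatedSet
      (hfin.mem_toFinset.1 hx) (hfin.mem_toFinset.1 hy) hxy
    rw [edist_dist] at h1
    have h2 : (e : ENNReal) = ENNReal.ofReal ε := by
      rw [ENNReal.ofReal, Real.toNNReal_of_nonneg hε.le]
      rfl
    rw [h2] at h1
    have h3 := (ENNReal.ofReal_lt_ofReal_iff_of_nonneg hε.le).1 h1
    rwa [Real.dist_eq] at h3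
  · have h1 := Metric.isCover_maximalSeparatedSet he
    rw [Metric.isCover_iff_subset_iUnion_closedBall] at h1
    intro x hx
    obtain ⟨y, hy, hxy⟩ := Set.mem_iUnion₂.1 (h1 hx)
    exact Set.mem_iUnion₂.2 ⟨y, hfin.mem_toFinset.2 hy, hxy⟩

/-- a set with few separated points at small scales has small dimension -/
theorem exists_many {X : Set ℝ} {s0 : ℝ} (hs0 : 0 ≤ s0)
    (hdim : ENNReal.ofReal s0 < dimH X) {D a : ℝ} (hD : 0 < D) (ha : 0 < a)
    (P : ℕ → Finset ℝ)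
    (hcov : ∀ k, X ⊆ ⋃ x ∈ P k, Metric.closedBall x (2 * D * (1 / 2) ^ (k + 1))) :
    ∃ k : ℕ, 1 ≤ ((P k).card : ℝ) * (a * (1 / 2) ^ (k + 1)) ^ s0 := by
  by_contra hno
  push Not at hno
  have hle : Measure.hausdorffMeasure s0 X ≤ ENNReal.ofReal ((4 * D / a) ^ s0) := by
    have key := Measure.hausdorffMeasure_le_liminf_sum (X := ℝ) (β := ℕ)
      (ι := fun k => {x // x ∈ P k}) s0 X (l := atTop)
      (fun k => ENNReal.ofReal (4 * D * (1 / 2) ^ (k + 1)))
      (by
        have h0 : Tendsto (fun N : ℕ => (1 / 2 : ℝ) ^ N) atTop (𝓝 0) :=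
          tendsto_pow_atTop_nhds_zero_of_lt_one (by norm_num) (by norm_num)
        have h1 : Tendsto (fun N : ℕ => 4 * D * (1 / 2 : ℝ) ^ (N + 1)) atTop (𝓝 0) := by
          have h2 := (h0.comp (tendsto_add_atTop_nat 1)).const_mul (4 * D)
          simpa [Function.comp_def] using h2
        have := (ENNReal.continuous_ofReal.tendsto 0).comp h1
        simpa [Function.comp_def] using this)
      (fun k x => Metric.closedBall x.1 (2 * D * (1 / 2) ^ (k + 1)))
      (by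
        refine Eventually.of_forall fun k x => ?_
        rw [Real.closedBall_eq_Icc, Real.ediam_Icc]
        apply ENNReal.ofReal_le_ofReal
        apply le_of_eq
        ring)
      (Eventually.of_forall fun k => by
        refine (hcov k).trans ?_
        intro y hy
        obtain ⟨x, hx, hxy⟩ := Set.mem_iUnion₂.1 hy
        exact Set.mem_iUnion.2 ⟨⟨x, hx⟩, hxy⟩)
    refine key.trans ?_
    have hbound : ∀ k : ℕ, (∑ x : {x // x ∈ P k},
        Metric.ediam (Metric.closedBall x.1 (2 * D * (1 / 2) ^ (k + 1))) ^ s0) ≤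
          ENNReal.ofReal ((4 * D / a) ^ s0) := by
      intro k
      have hpos : (0 : ℝ) < (1 / 2) ^ (k + 1) := by positivity
      calc (∑ x : {x // x ∈ P k},
            Metric.ediam (Metric.closedBall x.1 (2 * D * (1 / 2) ^ (k + 1))) ^ s0)
          = ∑ x : {x // x ∈ P k}, ENNReal.ofReal ((4 * D * (1 / 2) ^ (k + 1)) ^ s0) := by
            refine Finset.sum_congr rfl fun x _ => ?_
            rw [Real.closedBall_eq_Icc, Real.ediam_Icc,
              ENNReal.ofReal_rpow_of_pos (by nlinarith)]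
            congr 2
            ring
        _ = ENNReal.ofReal (((P k).card : ℝ) * (4 * D * (1 / 2) ^ (k + 1)) ^ s0) := by
            rw [Finset.sum_const, Finset.card_univ, Fintype.card_coe, nsmul_eq_mul,
              ENNReal.ofReal_mul (by positivity), ENNReal.ofReal_natCast]
        _ ≤ ENNReal.ofReal ((4 * D / a) ^ s0) := by
            apply ENNReal.ofReal_le_ofReal
            have h1 : (4 * D * (1 / 2) ^ (k + 1) : ℝ) = (4 * D / a) * (a * (1 / 2) ^ (k + 1)) := by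
              field_simp
            rw [h1, Real.mul_rpow (by positivity) (by positivity)]
            have h2 := hno k
            have h3 : 0 ≤ (4 * D / a) ^ s0 := by positivity
            calc ((P k).card : ℝ) * ((4 * D / a) ^ s0 * (a * (1 / 2) ^ (k + 1)) ^ s0)
                = (4 * D / a) ^ s0 * (((P k).card : ℝ) * (a * (1 / 2) ^ (k + 1)) ^ s0) := by ring
              _ ≤ (4 * D / a) ^ s0 * 1 := mul_le_mul_of_nonneg_left h2.le h3
              _ = (4 * D / a) ^ s0 := mul_one _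
    calc liminf (fun k : ℕ => ∑ x : {x // x ∈ P k},
          Metric.ediam (Metric.closedBall x.1 (2 * D * (1 / 2) ^ (k + 1))) ^ s0) atTop
        ≤ liminf (fun _ : ℕ => ENNReal.ofReal ((4 * D / a) ^ s0)) atTop :=
          liminf_le_liminf (Eventually.of_forall hbound)
      _ = _ := by simp
  have h1 : dimH X ≤ (Real.toNNReal s0 : ENNReal) := by
    apply dimH_le_of_hausdorffMeasure_ne_top
    rw [Real.coe_toNNReal _ hs0]
    exact ne_top_of_le_ne_top ENNReal.ofReal_ne_top hle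
  exact absurd hdim (not_lt.2 h1)

end Pool.Agent.Y810.EO2
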