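import Pool.Agent.Y810.EO2.Lower
import Pool.Agent.Y810.EO2.Upper

/-!
# The dimension of the attractor of a compact family of similarities
-/

set_option autoImplicit false

open Finset Filter MeasureTheory Topology Set

namespace Pool.Agent.Y810.EO2

/-- lower bound for free subsets of the generated semigroup -/
theorem freeDims_le {Φ : Set (ℝ → ℝ)} (hS : ∀ φ ∈ Φ, IsSim φ) {X : Set ℝ} (hXn : X.Nonempty)
    (hXc : IsCompact X) (hXi : ∀ φ ∈ Φ, ∀ x ∈ X, φ x ∈ X) {s : ℝ} (hs : s ∈ freeDims Φ) :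
    ENNReal.ofReal (min 1 s) ≤ dimH X := by
  obtain ⟨Ψ, hΨ, hfree, hsd⟩ := hs
  refine lower Ψ (fun f hf => isSim_gen hS f (hΨ hf)) hfree X hXn hXc ?_ s hsd
  intro f hf x hx
  obtain ⟨w, -, hw, hwf⟩ := hΨ hf
  rw [← hwf]
  exact comp_mem (fun g hg => hXi g (hw g hg)) x hx

/-- the dimension formula -/
theorem dimH_eq {Φ : Set (ℝ → ℝ)} (hΦ : Φ.Nonempty) (hS : ∀ φ ∈ Φ, IsSim φ)
    (hc : IsCompact Φ) {X : Set ℝ} (hXn : X.Nonempty) (hXc : IsCompact X)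
    (hinv : X = ⋃ φ ∈ Φ, φ '' X) :
    dimH X = ⨆ s ∈ freeDims Φ, ENNReal.ofReal (min 1 s) := by
  have hXi : ∀ f ∈ Φ, ∀ x ∈ X, f x ∈ X := by
    intro f hf x hx
    rw [hinv]
    exact Set.mem_iUnion₂.2 ⟨f, hf, x, hx, rfl⟩
  apply le_antisymm
  · refine le_of_forall_lt fun c hcX => ?_
    -- an intermediate value
    obtain ⟨c', hcc', hc'X⟩ := exists_between hcX
    have hdim1 : dimH X ≤ 1 := by
      calc dimH X ≤ dimH (Set.univ : Set ℝ) := dimH_mono (Set.subset_univ X)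
        _ = 1 := Real.dimH_univ
    have hc'1 : c' < 1 := lt_of_lt_of_le hc'X hdim1
    have hc't : c' ≠ ⊤ := ne_top_of_lt hc'1
    set s0 : ℝ := c'.toReal with hs0def
    have hs0 : 0 ≤ s0 := ENNReal.toReal_nonneg
    have hs0' : ENNReal.ofReal s0 = c' := ENNReal.ofReal_toReal hc't
    have hs01 : s0 < 1 := by
      have := (ENNReal.toReal_lt_toReal hc't ENNReal.one_ne_top).2 hc'1
      simpa using this
    -- the diameter
    obtain ⟨D, hD0, hD⟩ : ∃ D : ℝ, 0 < D ∧ ∀ x ∈ X, ∀ y ∈ X, |x - y| ≤ D := by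
      obtain ⟨C, hC⟩ := Metric.isBounded_iff.1 hXc.isBounded
      refine ⟨max C 1, lt_max_of_lt_right one_pos, fun x hx y hy => ?_⟩
      have := hC hx hy
      rw [Real.dist_eq] at this
      exact this.trans (le_max_left _ _)
    obtain ⟨a, ρ, ha, hρ0, hρ1, hb⟩ := exists_bounds hΦ hS hc
    have hsepk : ∀ k : ℕ, ∃ P : Finset ℝ, (↑P : Set ℝ) ⊆ X ∧
        (∀ x ∈ P, ∀ y ∈ P, x ≠ y → 2 * D * (1 / 2) ^ (k + 1) < |x - y|) ∧
        X ⊆ ⋃ x ∈ P, Metric.closedBall x (2 * D * (1 / 2) ^ (k + 1)) :=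
      fun k => exists_sep hXc (by positivity)
    choose P hPX hPsep hPcov using hsepk
    obtain ⟨k, hk⟩ := exists_many hs0 (by rw [hs0']; exact hc'X) hD0 ha P hPcov
    have hδ1 : ((1 / 2 : ℝ)) ^ (k + 1) < 1 :=
      pow_lt_one₀ (by norm_num) (by norm_num) (by omega)
    obtain ⟨Ψ, hΨG, hΨfree, hΨcard, hΨr⟩ := free_of_separated hS ha hρ0 hρ1 hb hXn hinv hD
      (by positivity) hδ1 (P k) (hPX k) (hPsep k)
    have hΨS : ∀ f ∈ Ψ, IsSim f := fun f hf => isSim_gen hS f (hΨG hf)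
    have hsum : 1 ≤ ∑ f ∈ Ψ, ratio f ^ s0 := by
      calc (1 : ℝ) ≤ ((P k).card : ℝ) * (a * (1 / 2) ^ (k + 1)) ^ s0 := hk
        _ = ∑ _f ∈ Ψ, (a * (1 / 2) ^ (k + 1)) ^ s0 := by
          rw [Finset.sum_const, nsmul_eq_mul, hΨcard]
        _ ≤ ∑ f ∈ Ψ, ratio f ^ s0 := Finset.sum_le_sum fun f hf =>
          Real.rpow_le_rpow (by positivity) (hΨr f hf) hs0
    obtain ⟨s, hs, hsd⟩ := exists_simDim Ψ hΨS hs0 hsum
    have hmem : s ∈ freeDims Φ := ⟨Ψ, hΨG, hΨfree, hsd⟩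
    have h1 : ENNReal.ofReal (min 1 s) ≤ ⨆ s ∈ freeDims Φ, ENNReal.ofReal (min 1 s) :=
      le_iSup₂ (f := fun s (_ : s ∈ freeDims Φ) => ENNReal.ofReal (min 1 s)) s hmem
    refine lt_of_lt_of_le hcc' (le_trans ?_ h1)
    rw [← hs0']
    exact ENNReal.ofReal_le_ofReal (le_min hs01.le hs)
  · exact iSup₂_le fun s hs => freeDims_le hS hXn hXc hXi hs

/-- the family itself is contained in the generated semigroup -/
theorem subset_gen (Φ : Set (ℝ → ℝ)) : Φ ⊆ Gen Φ := by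
  intro f hf
  exact ⟨[f], by simp, by simpa using hf, by funext x; rfl⟩

theorem IsFree.mono {Ψ Φ : Set (ℝ → ℝ)} (h : IsFree Φ) (hs : Ψ ⊆ Φ) : IsFree Ψ :=
  fun w w' h0 h0' h1 h1' h2 => h w w' h0 h0' (fun f hf => hs (h1 f hf))
    (fun f hf => hs (h1' f hf)) h2

/-- infinite compact free families have an attractor of full dimension -/
theorem dimH_eq_one {Φ : Set (ℝ → ℝ)} (hS : ∀ φ ∈ Φ, IsSim φ)
    (hc : IsCompact Φ) {X : Set ℝ} (hXn : X.Nonempty) (hXc : IsCompact X)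
    (hinv : X = ⋃ φ ∈ Φ, φ '' X) (hinf : Φ.Infinite) (hfree : IsFree Φ) : dimH X = 1 := by
  have hXi : ∀ f ∈ Φ, ∀ x ∈ X, f x ∈ X := by
    intro f hf x hx
    rw [hinv]
    exact Set.mem_iUnion₂.2 ⟨f, hf, x, hx, rfl⟩
  apply le_antisymm
  · calc dimH X ≤ dimH (Set.univ : Set ℝ) := dimH_mono (Set.subset_univ X)
      _ = 1 := Real.dimH_univ
  · obtain ⟨a, ρ, ha, hρ0, hρ1, hb⟩ := exists_bounds hinf.nonempty hS hc
    obtain ⟨n, hn⟩ := exists_nat_gt (1 / a)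
    obtain ⟨Ψ, hΨ, hcard⟩ := hinf.exists_subset_card_eq n
    have hΨS : ∀ f ∈ Ψ, IsSim f := fun f hf => hS f (hΨ hf)
    have hsum : (1 : ℝ) ≤ ∑ f ∈ Ψ, ratio f ^ (1 : ℝ) := by
      calc (1 : ℝ) ≤ (n : ℝ) * a := by
            rw [div_lt_iff₀ ha] at hn
            exact hn.le
        _ = ∑ _f ∈ Ψ, a := by rw [Finset.sum_const, nsmul_eq_mul, hcard]
        _ ≤ ∑ f ∈ Ψ, ratio f ^ (1 : ℝ) := Finset.sum_le_sum fun f hf => by
          rw [Real.rpow_one]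
          exact (hb f (hΨ hf)).1
    obtain ⟨s, hs, hsd⟩ := exists_simDim Ψ hΨS zero_le_one hsum
    have h1 := freeDims_le hS hXn hXc hXi (s := s)
      ⟨Ψ, fun f hf => subset_gen Φ (hΨ hf), hfree.mono hΨ, hsd⟩
    rw [min_eq_left hs] at h1
    simpa using h1

/-- finite free families: the exact overlaps conjecture -/
theorem dimH_eq_simDim {Ψ : Finset (ℝ → ℝ)} (hS : ∀ φ ∈ Ψ, IsSim φ) {X : Set ℝ}
    (hXn : X.Nonempty) (hXc : IsCompact X) (hinv : X = ⋃ φ ∈ Ψ, φ '' X)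
    (hfree : IsFree (↑Ψ : Set (ℝ → ℝ))) {s : ℝ} (hs : IsSimDim Ψ s) :
    dimH X = ENNReal.ofReal (min 1 s) := by
  classical
  have hXi : ∀ f ∈ Ψ, ∀ x ∈ X, f x ∈ X := by
    intro f hf x hx
    rw [hinv]
    exact Set.mem_iUnion₂.2 ⟨f, hf, x, hx, rfl⟩
  apply le_antisymm
  · obtain ⟨hs0, hs1⟩ := hs
    have hn : 0 < Ψ.card := by
      rw [Finset.card_pos]
      by_contra h
      rw [Finset.not_nonempty_iff_eq_empty] at h
      subst h
      simp at hs1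
    let e : Fin Ψ.card ≃ {f // f ∈ Ψ} := Ψ.equivFin.symm
    have hex : ∀ i : Fin Ψ.card, ∃ rt : ℝ × ℝ, rt.1 ≠ 0 ∧ |rt.1| < 1 ∧
        ∀ x, (e i).1 x = rt.1 * x + rt.2 := by
      intro i
      obtain ⟨r, t, h0, h1, h2⟩ := hS (e i).1 (e i).2
      exact ⟨(r, t), h0, h1, h2⟩
    choose rt hrt0 hrt1 hrt using hex
    refine H517.EO.t_G_upper Ψ.card (fun i => (rt i).1) (fun i => (rt i).2) hn
      (fun i => ⟨hrt0 i, hrt1 i⟩) X hXn hXc ?_ s ?_
    · have h1 : ∀ i, (fun x : ℝ => (rt i).1 * x + (rt i).2) = (e i).1 := by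
        intro i
        funext x
        exact (hrt i x).symm
      conv_lhs => rw [hinv]
      ext y
      constructor
      · intro hy
        obtain ⟨f, hf, hy⟩ := Set.mem_iUnion₂.1 hy
        refine Set.mem_iUnion.2 ⟨e.symm ⟨f, hf⟩, ?_⟩
        rw [h1, Equiv.apply_symm_apply]
        exact hy
      · intro hy
        obtain ⟨i, hy⟩ := Set.mem_iUnion.1 hy
        rw [h1] at hy
        exact Set.mem_iUnion₂.2 ⟨(e i).1, (e i).2, hy⟩
    · rw [← hs1]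
      have h1 : ∑ f ∈ Ψ, ratio f ^ s = ∑ f : {f // f ∈ Ψ}, ratio f.1 ^ s :=
        (Finset.sum_coe_sort Ψ (fun f => ratio f ^ s)).symm
      rw [h1, ← e.sum_comp]
      refine Finset.sum_congr rfl fun i _ => ?_
      rw [IsSim.ratio_eq (hrt i)]
  · exact lower Ψ hS hfree X hXn hXc hXi s hs

end Pool.Agent.Y810.EO2
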